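import Pool.Agent.R450.Sp.Haus

/-!
MP_0d7d6c_co: realizable Laplacian spectra under iterated suspension.
For every finite graph `G₀`, the proportion `P (G n)` of realizable tuples tends to `1` along the
iterated suspensions of `G₀`.
-/

namespace Pool.Agent.Results.MP_0d7d6c_co.SuspensionLimit

open MeasureTheory Filter Topology Measure

universe u

/-- `w` is a weighting of `G`: a symmetric nonnegative function that vanishes off the edges of
`G`. -/
def IsWeighting {V : Type u} (G : SimpleGraph V) (w : V → V → ℝ) : Prop :=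
  (∀ i j, w i j = w j i) ∧ (∀ i j, 0 ≤ w i j) ∧ (∀ i j, ¬ G.Adj i j → w i j = 0)

/-- The weighted Laplacian `D_w - W_w`. -/
def laplacian {V : Type u} [Fintype V] [DecidableEq V] (w : V → V → ℝ) : Matrix V V ℝ :=
  Matrix.diagonal (fun i => ∑ j, w i j) - Matrix.of w

/-- The multiset `s` is realizable by `G`: for some weighting of `G` the eigenvalues of the weighted
Laplacian (the roots of its characteristic polynomial, with multiplicity) are `0` and the elements
of `s`. -/
def Realizable {V : Type u} [Fintype V] [DecidableEq V] (G : SimpleGraph V)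
    (s : Multiset ℝ) : Prop :=
  ∃ w : V → V → ℝ, IsWeighting G w ∧ (laplacian w).charpoly.roots = 0 ::ₘ s

/-- The simplex `R` for graphs on `n` vertices: nonnegative `(n-1)`-tuples with sum `1`. -/
def R (n : ℕ) : Set (EuclideanSpace ℝ (Fin (n - 1))) := {l | (∀ i, 0 ≤ l i) ∧ ∑ i, l i = 1}

/-- `P(G)`: with `n` the number of vertices, the `(n-2)`-dimensional euclidean volume `μHE[n-2]` of
the set of realizable tuples in `R`, divided by that of `R`. -/
noncomputable def P {V : Type u} [Fintype V] [DecidableEq V] (G : SimpleGraph V) : ℝ :=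
  (μHE[Fintype.card V - 2] {l | l ∈ R (Fintype.card V) ∧ Realizable G (Finset.univ.val.map l)} /
    μHE[Fintype.card V - 2] (R (Fintype.card V))).toReal

/-- The suspension of `G`: one new vertex `none`, adjacent to every vertex of `G`. -/
def suspension {V : Type u} (G : SimpleGraph V) : SimpleGraph (Option V) where
  Adj a b := match a, b with
    | some i, some j => G.Adj i j
    | some _, none => True
    | none, some _ => True
    | none, none => False
  symm := ⟨by
    rintro (_ | i) (_ | j) h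
    · exact h
    · trivial
    · trivial
    · exact G.adj_symm h⟩
  loopless := ⟨by
    rintro (_ | i) h
    · exact h
    · exact G.loopless.irrefl i h⟩

/-- The vertex set of the `n`-fold suspension. -/
def SuspV (V : Type u) : ℕ → Type u
  | 0 => V
  | n + 1 => Option (SuspV V n)

/-- The `n`-fold suspension of `G₀` (the graph `G_n` of the problem). -/
def iterSusp {V : Type u} (G₀ : SimpleGraph V) : ∀ n : ℕ, SimpleGraph (SuspV V n)
  | 0 => G₀
  | n + 1 => suspension (iterSusp G₀ n)

instance instFintypeSuspV {V : Type u} [Fintype V] : ∀ n : ℕ, Fintype (SuspV V n)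
  | 0 => inferInstanceAs (Fintype V)
  | n + 1 =>
    haveI := instFintypeSuspV (V := V) n
    inferInstanceAs (Fintype (Option (SuspV V n)))

instance instDecidableEqSuspV {V : Type u} [DecidableEq V] : ∀ n : ℕ, DecidableEq (SuspV V n)
  | 0 => inferInstanceAs (DecidableEq V)
  | n + 1 =>
    haveI := instDecidableEqSuspV (V := V) n
    inferInstanceAs (DecidableEq (Option (SuspV V n)))

/-! ### auxiliary lemmas -/

theorem card_SuspV {V : Type u} [Fintype V] : ∀ n : ℕ,
    Fintype.card (SuspV V n) = Fintype.card V + n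
  | 0 => rfl
  | n + 1 => by
    have h1 : Fintype.card (SuspV V (n + 1)) = Fintype.card (Option (SuspV V n)) := rfl
    rw [h1, Fintype.card_option, card_SuspV n, add_assoc]

theorem exists_equiv {V : Type u} (G₀ : SimpleGraph V) : ∀ n : ℕ, ∃ e : SuspV V n ≃ V ⊕ Fin n,
    ∀ u v, u ≠ v → ¬ (iterSusp G₀ n).Adj u v → (e u).isLeft = true ∧ (e v).isLeft = true
  | 0 => ⟨(Equiv.sumEmpty V (Fin 0)).symm, fun _ _ _ _ => ⟨rfl, rfl⟩⟩
  | n + 1 => by
    obtain ⟨e, he⟩ := exists_equiv G₀ n
    have e1 : Fin n ⊕ PUnit.{1} ≃ Fin (n + 1) := Fintype.equivOfCardEq (by simp)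
    let e2 : Option (SuspV V n) ≃ V ⊕ Fin (n + 1) :=
      (Equiv.optionEquivSumPUnit.{0} (SuspV V n)).trans
        ((Equiv.sumCongr e (Equiv.refl _)).trans
          ((Equiv.sumAssoc V (Fin n) PUnit.{1}).trans (Equiv.sumCongr (Equiv.refl V) e1)))
    have h2 : ∀ (u : SuspV V n), (e u).isLeft = true → (e2 (some u)).isLeft = true := by
      intro u hu
      obtain ⟨a, ha⟩ := Sum.isLeft_iff.1 hu
      simp [e2, ha]
    refine ⟨e2, ?_⟩
    rintro (_ | u) (_ | v) huv hadj
    · exact absurd rfl huv
    · exact absurd trivial hadj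
    · exact absurd trivial hadj
    · have h3 := he u v (fun h => huv (congrArg some h)) hadj
      exact ⟨h2 u h3.1, h2 v h3.2⟩

theorem realizable_of_rz {V : Type u} [Fintype V] [DecidableEq V] (G : SimpleGraph V)
    {F : V → V → Prop} (hF : ∀ u v, u ≠ v → ¬ G.Adj u v → F u v) {s : Multiset ℝ}
    (h : R450.Sp.Rz F s) : Realizable G s := by
  obtain ⟨w, h1, h2, h3, h4, h5⟩ := h
  refine ⟨w, ⟨h1, h2, ?_⟩, ?_⟩
  · intro i j hij
    by_cases h : i = j
    · subst h
      exact h3 i
    · exact h4 i j (hF i j h hij)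
  · have e : (laplacian w).charpoly = Polynomial.X * R450.Sp.mp s := h5
    rw [e]
    have h6 : (R450.Sp.mp s) ≠ 0 := by
      have : (R450.Sp.mp s).Monic := Polynomial.monic_multiset_prod_of_monic _ _
        fun a _ => Polynomial.monic_X_sub_C a
      exact this.ne_zero
    rw [Polynomial.roots_mul (mul_ne_zero Polynomial.X_ne_zero h6), Polynomial.roots_X]
    unfold R450.Sp.mp
    rw [Polynomial.roots_multiset_prod_X_sub_C, Multiset.singleton_add]

theorem realizable_of_good {V : Type u} [Fintype V] [DecidableEq V] (G₀ : SimpleGraph V) {n : ℕ}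
    (hn : 3 ≤ n) {m d : ℕ} (hm : m = Fintype.card V) (hd : d = m + n - 2) {x : Fin d → ℝ}
    (hx : x ∈ R450.Sp.SS d) (hxG : x ∈ R450.Sp.GG m d) :
    Realizable (iterSusp G₀ n) ((1 - ∑ i, x i) ::ₘ Finset.univ.val.map x) := by
  obtain ⟨r, rfl⟩ : ∃ r, n = r + 1 := ⟨n - 1, by omega⟩
  obtain ⟨hx1, hx2⟩ := hx
  obtain ⟨hg1, j, hj⟩ := hxG
  have hd0 : 0 < d := by omega
  have hd0' : (0 : ℝ) < d := by exact_mod_cast hd0
  have hmulti : Finset.univ.val.map (Fin.cons (1 - ∑ i, x i) x : Fin (d + 1) → ℝ)
      = (1 - ∑ i, x i) ::ₘ Finset.univ.val.map x := by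
    rw [Fin.univ_succ, Finset.cons_val, Multiset.map_cons, Finset.map_val, Multiset.map_map]
    rfl
  have h1 := R450.Sp.rz_tuple (m := m) (R := Fin r) (ι := Fin (d + 1))
    (by rw [Fintype.card_fin, Fintype.card_fin]; omega)
    (x := (Fin.cons (1 - ∑ i, x i) x : Fin (d + 1) → ℝ)) (by
      intro i
      refine Fin.cases ?_ (fun j => ?_) i
      · rw [Fin.cons_zero]
        linarith
      · rw [Fin.cons_succ]
        exact hx1 j)
    (a := 1 / (d : ℝ)) (by positivity) (by
      intro k hk
      obtain ⟨i, hi1, hi2⟩ := hg1 k hk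
      refine ⟨i.succ, ?_, ?_⟩
      · rw [Fin.cons_succ]; exact hi1
      · rw [Fin.cons_succ]; exact hi2.le)
    ⟨j.succ, by rw [Fin.cons_succ]; exact hj.le⟩
  rw [hmulti] at h1
  obtain ⟨e, he⟩ := exists_equiv G₀ (r + 1)
  have e1 : Fin (r + 1) ≃ Unit ⊕ Fin r := Fintype.equivOfCardEq (by simp [add_comm])
  have e2 : V ≃ Fin m := Fintype.equivOfCardEq (by rw [Fintype.card_fin, hm])
  let e3 : SuspV V (r + 1) ≃ (Fin m ⊕ Unit) ⊕ Fin r :=
    e.trans ((Equiv.sumCongr e2 e1).trans (Equiv.sumAssoc (Fin m) Unit (Fin r)).symm)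
  refine realizable_of_rz _ ?_ (h1.equiv e3)
  intro u v huv hadj
  obtain ⟨h2, h3⟩ := he u v huv hadj
  obtain ⟨a, ha⟩ := Sum.isLeft_iff.1 h2
  obtain ⟨b, hb⟩ := Sum.isLeft_iff.1 h3
  refine ⟨e2 a, e2 b, ?_, ?_⟩
  · simp [e3, ha]
  · simp [e3, hb]

theorem P_eq {V : Type u} [Fintype V] [DecidableEq V] (G : SimpleGraph V) :
    P G = R450.Sp.prop (Fintype.card V - 1) (Realizable G) := rfl

/-- For every finite simple graph `G₀` (complete or not), `P(G_n) → 1` as `n → ∞`, where `G_n` is
the `n`-fold suspension of `G₀`. -/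
theorem result {V : Type u} [Fintype V] [DecidableEq V] (G₀ : SimpleGraph V) :
    Tendsto (fun n : ℕ => P (iterSusp G₀ n)) atTop (𝓝 1) := by
  set m := Fintype.card V with hm
  have h1 : Tendsto (fun n : ℕ => m + n - 2) atTop atTop := by
    apply tendsto_atTop_mono (f := fun n : ℕ => n - 2)
    · intro n
      show n - 2 ≤ m + n - 2
      omega
    · exact tendsto_sub_atTop_nat 2
  have h2 := (R450.Sp.GG_lim m).comp h1
  refine tendsto_of_tendsto_of_tendsto_of_le_of_le' h2 tendsto_const_nhds ?_ ?_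
  · filter_upwards [eventually_ge_atTop 3] with n hn
    have e : Fintype.card (SuspV V n) - 1 = (m + n - 2) + 1 := by
      rw [card_SuspV]
      omega
    rw [P_eq, e]
    exact R450.Sp.prop_ge (R450.Sp.GG_meas _ _) fun x hx hxG =>
      realizable_of_good G₀ hn hm rfl hx hxG
  · filter_upwards [eventually_ge_atTop 3] with n hn
    have e : Fintype.card (SuspV V n) - 1 = (m + n - 2) + 1 := by
      rw [card_SuspV]
      omega
    rw [P_eq, e]
    exact R450.Sp.prop_le_one _ _

end Pool.Agent.Results.MP_0d7d6c_co.SuspensionLimit
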